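import Mathlib

/-!
# The maxima in the mirror Markov tree are pairwise distinct (MP_6870a6_co)

For a triple `(a, b, c)` of the mirror Markov tree let `m(x) = x(0) * lead(x)` be the product of the
constant and the leading coefficient.  Below the vertex reached by `n` left steps followed by one
right step every mutation satisfies `m(d) m(y) = m(c)^2`, hence `3 m` is multiplicative along the
Stern-Brocot structure of this subtree and `3 m(c) = 3^(x+y) 2^(n x + (n+1) y)`, where `(x, y)` is
the Stern-Brocot position.  This number determines `n`, `x`, `y`, hence the vertex.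
-/

namespace Pool.Agent.Results.MP_6870a6_co.DistinctMaxima

open Polynomial LaurentPolynomial

/-- The symmetrization `X(q) = x(q) x(q⁻¹)` of a polynomial `x(q)`. -/
noncomputable def symm (x : ℤ[X]) : ℤ[T;T⁻¹] :=
  toLaurent x * LaurentPolynomial.invert (toLaurent x)

/-- `IsMutation s x y c d` says `d(q) = q^{deg c} (q^s X(q) + C(q)) / ỹ(q)`, where
`ỹ(q) = q^{deg y} y(q⁻¹)` is the mirror image of `y` (the polynomial with the coefficients of `y`
reversed, `Polynomial.reverse`). -/
def IsMutation (s : ℤ) (x y c d : ℤ[X]) : Prop :=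
  toLaurent d * toLaurent y.reverse = T (c.natDegree : ℤ) * (T s * symm x + symm c)

/-- A triple of polynomials. -/
@[ext] structure Triple where
  a : ℤ[X]
  b : ℤ[X]
  c : ℤ[X]

/-- The vertices of the mirror Markov tree: the two top vertices, and the vertices reached from
`t₀` by a word of left (`true`) and right (`false`) steps, read from `t₀` downwards. -/
inductive Vertex
  | top
  | second
  | node (w : List Bool)

/-- The sign of the edge entering the vertex reached from `t₀` by the word `w`: it is `+1` at
`t₀`, it is kept by a left step and changed by a right step. -/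
def sign (w : List Bool) : ℤ := (-1) ^ (w.count false)

/-- `τ` is the labelling of the vertices by the triples of the mirror Markov tree. -/
structure IsMirrorMarkovTree (τ : Vertex → Triple) : Prop where
  top : τ .top = ⟨1, 1, 1⟩
  second : τ .second = ⟨1, 1, 1 + X⟩
  root : τ (.node []) = ⟨1, 1 + X, 1 + 2 * X + 2 * X ^ 2⟩
  left_a : ∀ w, (τ (.node (w ++ [true]))).a = (τ (.node w)).a
  left_b : ∀ w, (τ (.node (w ++ [true]))).b = (τ (.node w)).c
  left_c : ∀ w, IsMutation (sign w) (τ (.node w)).a (τ (.node w)).b (τ (.node w)).c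
    (τ (.node (w ++ [true]))).c
  right_a : ∀ w, (τ (.node (w ++ [false]))).a = (τ (.node w)).b
  right_b : ∀ w, (τ (.node (w ++ [false]))).b = (τ (.node w)).c
  right_c : ∀ w, IsMutation (-sign w) (τ (.node w)).b (τ (.node w)).a (τ (.node w)).c
    (τ (.node (w ++ [false]))).c

/-! ### Laurent polynomials and reversal -/

lemma invert_toLaurent (x : ℤ[X]) :
    LaurentPolynomial.invert (toLaurent x) = T (-(x.natDegree : ℤ)) * toLaurent x.reverse := by
  rw [toLaurent_reverse, mul_comm, mul_assoc, ← T_add]
  simp

lemma T_symm (x : ℤ[X]) :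
    T (x.natDegree : ℤ) * symm x = toLaurent (x * x.reverse) := by
  rw [symm, invert_toLaurent, map_mul]
  calc T (x.natDegree : ℤ) * (toLaurent x * (T (-(x.natDegree : ℤ)) * toLaurent x.reverse))
      = (T (x.natDegree : ℤ) * T (-(x.natDegree : ℤ))) * (toLaurent x * toLaurent x.reverse) := by
        ring
    _ = _ := by rw [← T_add]; simp

/-- The polynomial form of a mutation. -/
lemma isMutation_iff {s : ℤ} {x y c d : ℤ[X]} {e : ℕ}
    (he : (e : ℤ) + x.natDegree = c.natDegree + s) :
    IsMutation s x y c d ↔ d * y.reverse = X ^ e * (x * x.reverse) + c * c.reverse := by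
  rw [← (Polynomial.toLaurent_injective (R := ℤ)).eq_iff]
  have h2 : toLaurent (X ^ e * (x * x.reverse) : ℤ[X])
      = T (e : ℤ) * (T (x.natDegree : ℤ) * symm x) := by
    rw [T_symm, map_mul toLaurent (X ^ e), Polynomial.toLaurent_X_pow]
  have h1 : T (c.natDegree : ℤ) * (T s * symm x + symm c)
      = toLaurent (X ^ e * (x * x.reverse) + c * c.reverse) := by
    rw [map_add, h2, mul_add, T_symm c, ← mul_assoc, ← T_add, ← mul_assoc, ← T_add, he]
  rw [IsMutation, h1, map_mul]

/-- Positive constant and positive leading coefficient. -/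
def Pos (x : ℤ[X]) : Prop := 0 < x.coeff 0 ∧ 0 < x.leadingCoeff

/-- The product of the constant and the leading coefficient. -/
def m (x : ℤ[X]) : ℤ := x.coeff 0 * x.leadingCoeff

lemma Pos.m_pos {x : ℤ[X]} (h : Pos x) : 0 < m x := mul_pos h.1 h.2

lemma Pos.ne_zero {x : ℤ[X]} (h : Pos x) : x ≠ 0 := by
  rintro rfl
  simpa using h.1

lemma Pos.natTrailingDegree {x : ℤ[X]} (h : Pos x) : x.natTrailingDegree = 0 := by
  rw [natTrailingDegree_eq_zero]
  exact Or.inr h.1.ne'

lemma Pos.natDegree_reverse {x : ℤ[X]} (h : Pos x) : x.reverse.natDegree = x.natDegree := by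
  rw [reverse_natDegree, h.natTrailingDegree, Nat.sub_zero]

lemma Pos.leadingCoeff_reverse {x : ℤ[X]} (h : Pos x) : x.reverse.leadingCoeff = x.coeff 0 := by
  rw [reverse_leadingCoeff, trailingCoeff, h.natTrailingDegree]

lemma Pos.reverse_ne_zero {x : ℤ[X]} (h : Pos x) : x.reverse ≠ 0 := by
  intro h0
  exact h.ne_zero (reverse_eq_zero.mp h0)

/-- The coefficients of `x * x.reverse` at the two ends. -/
lemma Pos.natDegree_mul_reverse {x : ℤ[X]} (h : Pos x) :
    (x * x.reverse).natDegree = 2 * x.natDegree := by
  rw [natDegree_mul h.ne_zero h.reverse_ne_zero, h.natDegree_reverse]; ring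

lemma Pos.coeff_mul_reverse {x : ℤ[X]} (h : Pos x) :
    (x * x.reverse).coeff (2 * x.natDegree) = m x := by
  rw [← h.natDegree_mul_reverse, coeff_natDegree, leadingCoeff_mul, h.leadingCoeff_reverse, m]
  ring

/-- What a mutation does to degrees, constant and leading coefficients. -/
lemma mutation_facts {s : ℤ} {x y c d : ℤ[X]} (hs : s = 1 ∨ s = -1) (hx : Pos x) (hy : Pos y)
    (hc : Pos c) (hdeg : x.natDegree + 1 ≤ c.natDegree) (h : IsMutation s x y c d) :
    Pos d ∧ d.natDegree + y.natDegree = 2 * c.natDegree ∧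
      m d * m y = if x.natDegree + 1 = c.natDegree then m c * (m c + m x) else m c ^ 2 := by
  obtain ⟨e, he⟩ : ∃ e : ℕ, (e : ℤ) + x.natDegree = c.natDegree + s := by
    refine ⟨(c.natDegree + s - x.natDegree).toNat, ?_⟩
    rcases hs with rfl | rfl <;> omega
  rw [isMutation_iff he] at h
  set N : ℤ[X] := X ^ e * (x * x.reverse) + c * c.reverse with hN
  -- the constant coefficient
  have h0 : d.coeff 0 * y.leadingCoeff = m c + if e = 0 then m x else 0 := by
    have := congrArg (fun p => coeff p 0) h
    simp only [mul_coeff_zero, coeff_zero_reverse, hN, coeff_add, coeff_X_pow] at this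
    rw [this, m, m]
    by_cases he0 : e = 0
    · simp [he0]; ring
    · have : ¬ (0 = e) := fun h => he0 h.symm
      simp [he0, this]
  have hxe : (X ^ e * (x * x.reverse)).natDegree = e + 2 * x.natDegree := by
    rw [natDegree_X_pow_mul _ (mul_ne_zero hx.ne_zero hx.reverse_ne_zero),
      hx.natDegree_mul_reverse]
    ring
  have hxle : e + 2 * x.natDegree ≤ 2 * c.natDegree := by
    rcases hs with rfl | rfl <;> omega
  -- the leading coefficient
  have hNc : N.coeff (2 * c.natDegree)
      = m c + if e + 2 * x.natDegree = 2 * c.natDegree then m x else 0 := by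
    rw [hN, coeff_add, hc.coeff_mul_reverse, add_comm]
    congr 1
    by_cases h1 : e + 2 * x.natDegree = 2 * c.natDegree
    · rw [if_pos h1, ← h1, add_comm, coeff_X_pow_mul, hx.coeff_mul_reverse]
    · rw [if_neg h1]
      apply coeff_eq_zero_of_natDegree_lt
      rw [hxe]; omega
  have hNpos : 0 < N.coeff (2 * c.natDegree) := by
    rw [hNc]
    have := hc.m_pos
    have := hx.m_pos
    split_ifs <;> omega
  have hNle : N.natDegree ≤ 2 * c.natDegree := by
    refine (natDegree_add_le _ _).trans (max_le ?_ ?_)
    · rw [hxe]; exact hxle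
    · rw [hc.natDegree_mul_reverse]
  have hNdeg : N.natDegree = 2 * c.natDegree :=
    le_antisymm hNle (le_natDegree_of_ne_zero hNpos.ne')
  have hNlead : N.leadingCoeff = N.coeff (2 * c.natDegree) := by
    rw [leadingCoeff, hNdeg]
  have hN0 : N ≠ 0 := by
    intro h0
    rw [h0] at hNpos
    simp at hNpos
  have hd0 : d ≠ 0 := by
    rintro rfl
    rw [zero_mul] at h
    exact hN0 h.symm
  have hdd : d.natDegree + y.natDegree = 2 * c.natDegree := by
    rw [← hNdeg, ← h, natDegree_mul hd0 hy.reverse_ne_zero, hy.natDegree_reverse]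
  have hlead : d.leadingCoeff * y.coeff 0
      = m c + if e + 2 * x.natDegree = 2 * c.natDegree then m x else 0 := by
    rw [← hNc, ← hNlead, ← h, leadingCoeff_mul, hy.leadingCoeff_reverse]
  have hmc := hc.m_pos
  have hmx := hx.m_pos
  have hpd : Pos d := by
    constructor
    · by_contra hneg
      have : d.coeff 0 * y.leadingCoeff ≤ 0 :=
        mul_nonpos_of_nonpos_of_nonneg (not_lt.mp hneg) hy.2.le
      rw [h0] at this
      split_ifs at this <;> omega
    · by_contra hneg
      have : d.leadingCoeff * y.coeff 0 ≤ 0 :=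
        mul_nonpos_of_nonpos_of_nonneg (not_lt.mp hneg) hy.1.le
      rw [hlead] at this
      split_ifs at this <;> omega
  refine ⟨hpd, hdd, ?_⟩
  have hprod : m d * m y = (d.coeff 0 * y.leadingCoeff) * (d.leadingCoeff * y.coeff 0) := by
    simp only [m]; ring
  rw [hprod, h0, hlead]
  rcases hs with rfl | rfl
  · have h1 : e ≠ 0 := by omega
    rw [if_neg h1, add_zero]
    by_cases h2 : x.natDegree + 1 = c.natDegree
    · rw [if_pos h2, if_pos (by omega)]
    · rw [if_neg h2, if_neg (by omega)]; ring
  · have h1 : ¬ (e + 2 * x.natDegree = 2 * c.natDegree) := by omega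
    rw [if_neg h1, add_zero]
    by_cases h2 : x.natDegree + 1 = c.natDegree
    · rw [if_pos h2, if_pos (by omega)]; ring
    · rw [if_neg h2, if_neg (by omega)]; ring

/-! ### Exactness of the divisions -/

/-- `x(q⁻¹)`. -/
noncomputable def bar (x : ℤ[X]) : ℤ[T;T⁻¹] := LaurentPolynomial.invert (toLaurent x)

lemma bar_dvd_symm (x : ℤ[X]) : bar x ∣ symm x := Dvd.intro_left _ rfl

lemma invert_symm (x : ℤ[X]) : LaurentPolynomial.invert (symm x) = symm x := by
  rw [symm, map_mul, LaurentPolynomial.involutive_invert, mul_comm]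

lemma invert_bar (x : ℤ[X]) : LaurentPolynomial.invert (bar x) = toLaurent x := by
  rw [bar, LaurentPolynomial.involutive_invert]

lemma symm_eq (x : ℤ[X]) : symm x = toLaurent x * bar x := rfl

lemma T_mul_T_neg (n : ℤ) : (T n * T (-n) : ℤ[T;T⁻¹]) = 1 := by
  rw [← T_add]; simp

lemma T_neg_mul_T (n : ℤ) : (T (-n) * T n : ℤ[T;T⁻¹]) = 1 := by
  rw [← T_add]; simp

/-- A mutation in terms of `y(q⁻¹)`. -/
lemma isMutation_iff_bar {s : ℤ} {x y c d : ℤ[X]} :
    IsMutation s x y c d ↔ toLaurent d * bar y =
      T ((c.natDegree : ℤ) - y.natDegree) * (T s * symm x + symm c) := by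
  rw [IsMutation, toLaurent_reverse, ← bar, sub_eq_add_neg, T_add]
  constructor
  · intro h
    calc toLaurent d * bar y
        = (toLaurent d * (bar y * T (y.natDegree : ℤ))) * T (-(y.natDegree : ℤ)) := by
          rw [mul_assoc (toLaurent d), mul_assoc (bar y), T_mul_T_neg, mul_one]
      _ = _ := by rw [h]; ring
  · intro h
    calc toLaurent d * (bar y * T (y.natDegree : ℤ))
        = (toLaurent d * bar y) * T (y.natDegree : ℤ) := by ring
      _ = (T (-(y.natDegree : ℤ)) * T (y.natDegree : ℤ)) *
            (T (c.natDegree : ℤ) * (T s * symm x + symm c)) := by rw [h]; ring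
      _ = _ := by rw [T_neg_mul_T, one_mul]

/-- The invariants that make the divisions exact. -/
structure Exact (s : ℤ) (x y c : ℤ[X]) : Prop where
  cxy : IsCoprime (symm x) (symm y)
  cxc : IsCoprime (symm x) (symm c)
  cyc : IsCoprime (symm y) (symm c)
  j1 : bar x ∣ T (-s) * symm y + symm c
  j2 : bar y ∣ T s * symm x + symm c
  j3 : bar c ∣ T (-s) * symm x + symm y

lemma Exact.swap {s : ℤ} {x y c : ℤ[X]} (h : Exact s x y c) : Exact (-s) y x c where
  cxy := h.cxy.symm
  cxc := h.cyc
  cyc := h.cxc
  j1 := by simpa using h.j2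
  j2 := h.j1
  j3 := by
    have h3 := h.j3.mul_left (T s)
    have : T s * (T (-s) * symm x + symm y) = T (- -s) * symm y + symm x := by
      rw [mul_add, ← mul_assoc, T_mul_T_neg, neg_neg]; ring
    rwa [this] at h3

lemma Exact.step {s : ℤ} {x y c d : ℤ[X]} (h : Exact s x y c) (hd : IsMutation s x y c d) :
    Exact s x c d := by
  rw [isMutation_iff_bar] at hd
  set k : ℤ := (c.natDegree : ℤ) - y.natDegree with hk
  -- the inverted relation
  have hd' : bar d * toLaurent y = T (-k) * (T (-s) * symm x + symm c) := by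
    have := congrArg LaurentPolynomial.invert hd
    rw [map_mul, map_mul, map_add, map_mul, invert_symm, invert_symm, invert_bar,
      LaurentPolynomial.invert_T, LaurentPolynomial.invert_T] at this
    exact this
  have hprod : symm d * symm y
      = (T s * symm x + symm c) * (T (-s) * symm x + symm c) := by
    calc symm d * symm y = (toLaurent d * bar y) * (bar d * toLaurent y) := by
          rw [symm_eq, symm_eq]; ring
      _ = (T k * T (-k)) * ((T s * symm x + symm c) * (T (-s) * symm x + symm c)) := by
          rw [hd, hd']; ring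
      _ = _ := by rw [T_mul_T_neg, one_mul]
  have hTT := T_mul_T_neg s
  have cbxy : IsCoprime (bar x) (symm y) := h.cxy.of_isCoprime_of_dvd_left (bar_dvd_symm x)
  have cbcy : IsCoprime (bar c) (symm y) := h.cyc.symm.of_isCoprime_of_dvd_left (bar_dvd_symm c)
  refine ⟨h.cxc, ?_, ?_, ?_, ?_, ?_⟩
  · -- symm x, symm d
    have h1 : IsCoprime (symm x) (symm d * symm y) := by
      have h2 : IsCoprime (symm x) (symm c * symm c) := h.cxc.mul_right h.cxc
      have h3 : symm d * symm y
          = symm c * symm c + symm x * (T s * T (-s) * symm x + (T s + T (-s)) * symm c) := by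
        rw [hprod]; ring
      rw [h3]
      exact h2.add_mul_left_right _
    exact h1.of_mul_right_left
  · have h1 : IsCoprime (symm c) (symm d * symm y) := by
      have h2 : IsCoprime (symm c) (symm x * symm x) := h.cxc.symm.mul_right h.cxc.symm
      have h3 : symm d * symm y
          = symm x * symm x + symm c * (symm c + (T s + T (-s)) * symm x) := by
        rw [hprod]
        linear_combination (symm x * symm x) * hTT
      rw [h3]
      exact h2.add_mul_left_right _
    exact h1.of_mul_right_left
  · -- bar x ∣ T (-s) * symm c + symm d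
    have h1 : bar x ∣ (T (-s) * symm c + symm d) * symm y := by
      have h3 : (T (-s) * symm c + symm d) * symm y
          = symm c * (T (-s) * symm y + symm c)
            + symm x * (T s * T (-s) * symm x + (T s + T (-s)) * symm c) := by
        rw [add_mul, hprod]; ring
      rw [h3]
      exact dvd_add (h.j1.mul_left _) ((bar_dvd_symm x).mul_right _)
    exact cbxy.dvd_of_dvd_mul_right h1
  · -- bar c ∣ T s * symm x + symm d
    have h1 : bar c ∣ (T s * symm x + symm d) * symm y := by
      have h3 : (T s * symm x + symm d) * symm y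
          = (T s * symm x) * (T (-s) * symm x + symm y)
            + symm c * (symm c + (T s + T (-s)) * symm x) := by
        rw [add_mul, hprod]; ring
      rw [h3]
      exact dvd_add (h.j3.mul_left _) ((bar_dvd_symm c).mul_right _)
    exact cbcy.dvd_of_dvd_mul_right h1
  · -- bar d ∣ T (-s) * symm x + symm c
    refine Dvd.intro (toLaurent y * T k) ?_
    calc bar d * (toLaurent y * T k) = (bar d * toLaurent y) * T k := by ring
      _ = (T (-k) * T k) * (T (-s) * symm x + symm c) := by rw [hd']; ring
      _ = _ := by rw [T_neg_mul_T, one_mul]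

/-- The division is exact. -/
lemma Exact.exists_mutation {s : ℤ} {x y c : ℤ[X]} (h : Exact s x y c) (hs : s = 1 ∨ s = -1)
    (hy : Pos y) (hdeg : x.natDegree + 1 ≤ c.natDegree) : ∃ d, IsMutation s x y c d := by
  obtain ⟨e, he⟩ : ∃ e : ℕ, (e : ℤ) + x.natDegree = c.natDegree + s := by
    refine ⟨(c.natDegree + s - x.natDegree).toNat, ?_⟩
    rcases hs with rfl | rfl <;> omega
  obtain ⟨D, hD⟩ := h.j2
  -- `D * T k` is the quotient
  obtain ⟨n, d', hd'⟩ := LaurentPolynomial.exists_T_pow
    (D * T ((c.natDegree : ℤ) - y.natDegree))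
  have hN : T (c.natDegree : ℤ) * (T s * symm x + symm c)
      = toLaurent (X ^ e * (x * x.reverse) + c * c.reverse) := by
    have h2 : toLaurent (X ^ e * (x * x.reverse) : ℤ[X])
        = T (e : ℤ) * (T (x.natDegree : ℤ) * symm x) := by
      rw [T_symm, map_mul toLaurent (X ^ e), Polynomial.toLaurent_X_pow]
    rw [map_add, h2, mul_add, T_symm c, ← mul_assoc, ← T_add, ← mul_assoc, ← T_add, he]
  have hmul : d' * y.reverse = X ^ n * (X ^ e * (x * x.reverse) + c * c.reverse) := by
    apply Polynomial.toLaurent_injective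
    rw [map_mul, map_mul, ← hN, hd', Polynomial.toLaurent_X_pow, toLaurent_reverse, ← bar, hD,
      sub_eq_add_neg, T_add]
    calc D * (T (c.natDegree : ℤ) * T (-(y.natDegree : ℤ))) * T (n : ℤ)
          * (bar y * T (y.natDegree : ℤ))
        = (T (-(y.natDegree : ℤ)) * T (y.natDegree : ℤ))
          * (T (n : ℤ) * (T (c.natDegree : ℤ) * (bar y * D))) := by ring
      _ = _ := by rw [T_neg_mul_T, one_mul]
  have hX : ¬ (X : ℤ[X]) ∣ y.reverse := by
    rw [X_dvd_iff, coeff_zero_reverse]
    exact hy.2.ne'
  obtain ⟨d, rfl⟩ : (X : ℤ[X]) ^ n ∣ d' :=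
    Prime.pow_dvd_of_dvd_mul_right prime_X n hX (Dvd.intro _ hmul.symm)
  refine ⟨d, (isMutation_iff he).mpr ?_⟩
  have hXn : (X : ℤ[X]) ^ n ≠ 0 := pow_ne_zero _ X_ne_zero
  apply mul_left_cancel₀ hXn
  rw [← hmul]; ring

/-- The result of a mutation is unique. -/
lemma mutation_unique {s : ℤ} {x y c d d' : ℤ[X]} (hy : Pos y) (h : IsMutation s x y c d)
    (h' : IsMutation s x y c d') : d = d' := by
  have h1 : toLaurent (d * y.reverse) = toLaurent (d' * y.reverse) := by
    rw [map_mul, map_mul]
    exact (show _ = _ from h).trans (show _ = _ from h').symm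
  have h2 := Polynomial.toLaurent_injective h1
  exact mul_right_cancel₀ hy.reverse_ne_zero h2

/-! ### Good triples -/

/-- The invariants of the vertices below `t₀`. -/
structure Good (ε : ℤ) (t : Triple) : Prop where
  sgn : ε = 1 ∨ ε = -1
  pa : Pos t.a
  pb : Pos t.b
  pc : Pos t.c
  deg : t.c.natDegree = t.a.natDegree + t.b.natDegree + 1
  degb : 1 ≤ t.b.natDegree
  exact : Exact ε t.a t.b t.c

lemma neg_sgn {ε : ℤ} (h : ε = 1 ∨ ε = -1) : -ε = 1 ∨ -ε = -1 := by
  rcases h with rfl | rfl <;> simp

lemma Good.left {ε : ℤ} {t : Triple} {d : ℤ[X]} (h : Good ε t)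
    (hd : IsMutation ε t.a t.b t.c d) : Good ε ⟨t.a, t.c, d⟩ := by
  have hdeg := h.deg
  have hb := h.degb
  obtain ⟨p, dg, -⟩ := mutation_facts h.sgn h.pa h.pb h.pc (by omega) hd
  exact ⟨h.sgn, h.pa, h.pc, p, by simp only; omega, by simp only; omega, h.exact.step hd⟩

lemma Good.right {ε : ℤ} {t : Triple} {d : ℤ[X]} (h : Good ε t)
    (hd : IsMutation (-ε) t.b t.a t.c d) : Good (-ε) ⟨t.b, t.c, d⟩ := by
  have hdeg := h.deg
  have hb := h.degb
  obtain ⟨p, dg, -⟩ := mutation_facts (neg_sgn h.sgn) h.pb h.pa h.pc (by omega) hd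
  exact ⟨neg_sgn h.sgn, h.pb, h.pc, p, by simp only; omega, by simp only; omega,
    h.exact.swap.step hd⟩

/-- `t₀`. -/
noncomputable def t0 : Triple := ⟨1, 1 + X, 1 + 2 * X + 2 * X ^ 2⟩

lemma natDegree_b0 : (1 + X : ℤ[X]).natDegree = 1 := by compute_degree!

lemma natDegree_c0 : (1 + 2 * X + 2 * X ^ 2 : ℤ[X]).natDegree = 2 := by compute_degree!

lemma coeff_b0 : (1 + X : ℤ[X]).coeff 0 = 1 := by simp

lemma coeff_c0 : (1 + 2 * X + 2 * X ^ 2 : ℤ[X]).coeff 0 = 1 := by simp

lemma lead_b0 : (1 + X : ℤ[X]).leadingCoeff = 1 := by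
  rw [leadingCoeff, natDegree_b0]
  simp [coeff_one]

lemma lead_c0 : (1 + 2 * X + 2 * X ^ 2 : ℤ[X]).leadingCoeff = 2 := by
  rw [leadingCoeff, natDegree_c0]
  have h : (1 + 2 * X + 2 * X ^ 2 : ℤ[X])
      = Polynomial.C 1 + Polynomial.C 2 * X + Polynomial.C 2 * X ^ 2 := by simp
  rw [h]
  simp only [coeff_add, Polynomial.coeff_C_mul, coeff_X_pow, coeff_X, Polynomial.coeff_C]
  norm_num

lemma pos_one : Pos (1 : ℤ[X]) := by simp [Pos]

lemma pos_b0 : Pos (1 + X : ℤ[X]) := ⟨by rw [coeff_b0]; norm_num, by rw [lead_b0]; norm_num⟩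

lemma pos_c0 : Pos (1 + 2 * X + 2 * X ^ 2 : ℤ[X]) :=
  ⟨by rw [coeff_c0]; norm_num, by rw [lead_c0]; norm_num⟩

lemma symm_one : symm 1 = 1 := by simp [symm]

lemma toL_b0 : toLaurent (1 + X : ℤ[X]) = 1 + T 1 := by simp

lemma toL_c0 : toLaurent (1 + 2 * X + 2 * X ^ 2 : ℤ[X]) = 1 + 2 * T 1 + 2 * (T 1 * T 1) := by
  rw [map_add, map_add, map_mul, map_mul, map_pow, map_one, map_ofNat, Polynomial.toLaurent_X]
  ring

lemma bar_b0 : bar (1 + X : ℤ[X]) = 1 + T (-1) := by
  rw [bar, toL_b0]; simp

lemma bar_c0 : bar (1 + 2 * X + 2 * X ^ 2 : ℤ[X]) = 1 + 2 * T (-1) + 2 * (T (-1) * T (-1)) := by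
  rw [bar, toL_c0]
  simp only [map_add, map_mul, map_one, LaurentPolynomial.invert_T, map_ofNat]

lemma exact_t0 : Exact 1 t0.a t0.b t0.c := by
  have hT : (T 1 * T (-1) : ℤ[T;T⁻¹]) = 1 := T_mul_T_neg 1
  have hB : symm (1 + X : ℤ[X]) = (1 + T 1) * (1 + T (-1)) := by
    rw [symm_eq, toL_b0, bar_b0]
  have hC : symm (1 + 2 * X + 2 * X ^ 2 : ℤ[X])
      = (1 + 2 * T 1 + 2 * (T 1 * T 1)) * (1 + 2 * T (-1) + 2 * (T (-1) * T (-1))) := by
    rw [symm_eq, toL_c0, bar_c0]
  refine ⟨?_, ?_, ?_, ?_, ?_, ?_⟩
  · simp only [t0, symm_one]; exact isCoprime_one_left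
  · simp only [t0, symm_one]; exact isCoprime_one_left
  · simp only [t0]
    rw [hB, hC]
    have h1 : IsCoprime (1 + T 1 : ℤ[T;T⁻¹]) (1 + 2 * T 1 + 2 * (T 1 * T 1)) :=
      ⟨-(2 * T 1), 1, by ring⟩
    have h2 : IsCoprime (1 + T (-1) : ℤ[T;T⁻¹]) (1 + 2 * T (-1) + 2 * (T (-1) * T (-1))) :=
      ⟨-(2 * T (-1)), 1, by ring⟩
    have h3 : IsCoprime (1 + T 1 : ℤ[T;T⁻¹]) (1 + 2 * T (-1) + 2 * (T (-1) * T (-1))) := by
      refine ⟨-(2 * T (-1) * T (-1)), 1, ?_⟩
      linear_combination (-2 * T (-1)) * hT
    have h4 : IsCoprime (1 + T (-1) : ℤ[T;T⁻¹]) (1 + 2 * T 1 + 2 * (T 1 * T 1)) := by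
      refine ⟨-(2 * T 1 * T 1), 1, ?_⟩
      linear_combination (-2 * T 1) * hT
    exact (h1.mul_right h3).mul_left (h4.mul_right h2)
  · simp only [t0]
    have : bar (1 : ℤ[X]) = 1 := by simp [bar]
    rw [this]
    exact one_dvd _
  · simp only [t0]
    rw [symm_one, hC, bar_b0]
    -- q + C = (1 + q⁻¹) * (...)
    refine ⟨2 * (T 1 * T 1) + 5 * T 1 + 4 + 2 * T (-1), ?_⟩
    linear_combination (2 * T 1 + 3 + 4 * T (-1) + 4 * T 1 * T (-1)) * hT
  · simp only [t0]
    rw [symm_one, hB, bar_c0]
    refine ⟨T 1, ?_⟩
    linear_combination (-1 - 2 * T (-1)) * hT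

lemma good_t0 : Good 1 t0 :=
  ⟨Or.inl rfl, pos_one, pos_b0, pos_c0, by simp [t0, natDegree_b0, natDegree_c0],
    by simp [t0, natDegree_b0], exact_t0⟩

/-! ### Any mirror Markov tree has good vertices -/

lemma sign_nil : sign [] = 1 := by simp [sign]

lemma sign_left (w : List Bool) : sign (w ++ [true]) = sign w := by
  simp [sign, List.count_append]

lemma sign_right (w : List Bool) : sign (w ++ [false]) = -sign w := by
  simp [sign, List.count_append, pow_succ]

lemma good_node {τ : Vertex → Triple} (h : IsMirrorMarkovTree τ) (w : List Bool) :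
    Good (sign w) (τ (.node w)) := by
  induction w using List.reverseRecOn with
  | nil => rw [sign_nil, h.root]; exact good_t0
  | append_singleton w l ih =>
    cases l with
    | true =>
      have h1 := ih.left (h.left_c w)
      have h2 : τ (.node (w ++ [true]))
          = ⟨(τ (.node w)).a, (τ (.node w)).c, (τ (.node (w ++ [true]))).c⟩ :=
        Triple.ext (h.left_a w) (h.left_b w) rfl
      rw [sign_left, h2]
      exact h1
    | false =>
      have h1 := ih.right (h.right_c w)
      have h2 : τ (.node (w ++ [false]))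
          = ⟨(τ (.node w)).b, (τ (.node w)).c, (τ (.node (w ++ [false]))).c⟩ :=
        Triple.ext (h.right_a w) (h.right_b w) rfl
      rw [sign_right, h2]
      exact h1

/-! ### Existence and uniqueness of the tree -/

open Classical in
/-- The polynomial obtained by a mutation. -/
noncomputable def mutate (s : ℤ) (x y c : ℤ[X]) : ℤ[X] :=
  if h : ∃ d, IsMutation s x y c d then h.choose else 0

lemma mutate_spec {s : ℤ} {x y c : ℤ[X]} (h : ∃ d, IsMutation s x y c d) :
    IsMutation s x y c (mutate s x y c) := by
  rw [mutate, dif_pos h]; exact h.choose_spec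

/-- The tree, on reversed words. -/
noncomputable def build : List Bool → Triple
  | [] => t0
  | true :: w => ⟨(build w).a, (build w).c,
      mutate (sign w.reverse) (build w).a (build w).b (build w).c⟩
  | false :: w => ⟨(build w).b, (build w).c,
      mutate (-sign w.reverse) (build w).b (build w).a (build w).c⟩

lemma Good.exists_left {ε : ℤ} {t : Triple} (h : Good ε t) : ∃ d, IsMutation ε t.a t.b t.c d := by
  have hdeg := h.deg
  exact h.exact.exists_mutation h.sgn h.pb (by omega)

lemma Good.exists_right {ε : ℤ} {t : Triple} (h : Good ε t) :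
    ∃ d, IsMutation (-ε) t.b t.a t.c d := by
  have hdeg := h.deg
  exact h.exact.swap.exists_mutation (neg_sgn h.sgn) h.pa (by omega)

lemma good_build (w : List Bool) : Good (sign w.reverse) (build w) := by
  induction w with
  | nil => simpa [sign_nil, build] using good_t0
  | cons l w ih =>
    cases l with
    | true =>
      rw [List.reverse_cons, sign_left]
      exact ih.left (mutate_spec ih.exists_left)
    | false =>
      rw [List.reverse_cons, sign_right]
      exact ih.right (mutate_spec ih.exists_right)

/-- The mirror Markov tree. -/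
noncomputable def tree : Vertex → Triple
  | .top => ⟨1, 1, 1⟩
  | .second => ⟨1, 1, 1 + X⟩
  | .node w => build w.reverse

lemma isMirrorMarkovTree_tree : IsMirrorMarkovTree tree where
  top := rfl
  second := rfl
  root := rfl
  left_a w := by simp [tree, build]
  left_b w := by simp [tree, build]
  left_c w := by
    have h := good_build w.reverse
    have h1 := mutate_spec h.exists_left
    rw [List.reverse_reverse] at h1
    simpa [tree, build] using h1
  right_a w := by simp [tree, build]
  right_b w := by simp [tree, build]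
  right_c w := by
    have h := good_build w.reverse
    have h1 := mutate_spec h.exists_right
    rw [List.reverse_reverse] at h1
    simpa [tree, build] using h1

lemma tree_unique {τ τ' : Vertex → Triple} (h : IsMirrorMarkovTree τ)
    (h' : IsMirrorMarkovTree τ') : τ = τ' := by
  have key : ∀ w, τ (.node w) = τ' (.node w) := by
    intro w
    induction w using List.reverseRecOn with
    | nil => rw [h.root, h'.root]
    | append_singleton w l ih =>
      have g := good_node h w
      cases l with
      | true =>
        refine Triple.ext ?_ ?_ ?_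
        · rw [h.left_a, h'.left_a, ih]
        · rw [h.left_b, h'.left_b, ih]
        · have h1 := h.left_c w
          have h2 := h'.left_c w
          rw [← ih] at h2
          exact mutation_unique g.pb h1 h2
      | false =>
        refine Triple.ext ?_ ?_ ?_
        · rw [h.right_a, h'.right_a, ih]
        · rw [h.right_b, h'.right_b, ih]
        · have h1 := h.right_c w
          have h2 := h'.right_c w
          rw [← ih] at h2
          exact mutation_unique g.pa h1 h2
  funext v
  cases v with
  | top => rw [h.top, h'.top]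
  | second => rw [h.second, h'.second]
  | node w => exact key w

/-! ### The value of `m` at a vertex -/

/-- The Stern-Brocot position of the vertex reached by a word. -/
def pos : List Bool → ℕ × ℕ
  | [] => (1, 1)
  | true :: v => ((pos v).1 + (pos v).2, (pos v).2)
  | false :: v => ((pos v).2, (pos v).1 + (pos v).2)

lemma pos_pos (v : List Bool) : 1 ≤ (pos v).1 ∧ 1 ≤ (pos v).2 := by
  induction v with
  | nil => simp [pos]
  | cons l v ih => cases l <;> simp [pos] <;> omega

lemma pos_injective (v v' : List Bool) (h : pos v = pos v') : v = v' := by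
  induction v generalizing v' with
  | nil =>
    cases v' with
    | nil => rfl
    | cons l v' =>
      have := pos_pos v'
      cases l <;> simp only [pos, Prod.mk.injEq] at h <;> omega
  | cons l v ih =>
    have hv := pos_pos v
    cases v' with
    | nil => cases l <;> simp only [pos, Prod.mk.injEq] at h <;> omega
    | cons l' v' =>
      have hv' := pos_pos v'
      cases l <;> cases l' <;> simp only [pos, Prod.mk.injEq] at h
      · rw [ih v' (Prod.ext (by omega) (by omega))]
      · omega
      · omega
      · rw [ih v' (Prod.ext (by omega) (by omega))]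

/-- Below a vertex with `m(c) = 3 m(a) m(b)` and `deg a ≥ 1`, `3 m` is multiplicative. -/
lemma value_generic {τ : Vertex → Triple} (h : IsMirrorMarkovTree τ) (v : List Bool) :
    ∀ w : List Bool, 1 ≤ (τ (.node w)).a.natDegree →
      m (τ (.node w)).c = 3 * m (τ (.node w)).a * m (τ (.node w)).b →
      3 * m (τ (.node (w ++ v))).c
        = (3 * m (τ (.node w)).a) ^ (pos v).1 * (3 * m (τ (.node w)).b) ^ (pos v).2 := by
  induction v with
  | nil =>
    intro w _ hm
    rw [List.append_nil, hm]
    simp only [pos]
    ring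
  | cons l v ih =>
    intro w ha hm
    have g := good_node h w
    have hdeg := g.deg
    have hb := g.degb
    cases l with
    | true =>
      have hw : w ++ true :: v = (w ++ [true]) ++ v := by simp
      obtain ⟨-, -, hd⟩ := mutation_facts g.sgn g.pa g.pb g.pc (by omega) (h.left_c w)
      rw [if_neg (by omega)] at hd
      have hd' : m (τ (.node (w ++ [true]))).c
          = 3 * m (τ (.node w)).a * m (τ (.node w)).c := by
        have hbp := g.pb.m_pos
        apply mul_right_cancel₀ hbp.ne'
        rw [hd]
        nth_rewrite 1 [sq, hm]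
        ring
      rw [hw, ih (w ++ [true]) (by rw [h.left_a]; exact ha)
        (by rw [h.left_a, h.left_b]; exact hd'), h.left_a, h.left_b, hm]
      simp only [pos]
      rw [show 3 * (3 * m (τ (.node w)).a * m (τ (.node w)).b)
        = (3 * m (τ (.node w)).a) * (3 * m (τ (.node w)).b) by ring]
      generalize 3 * m (τ (.node w)).a = α
      generalize 3 * m (τ (.node w)).b = β
      ring
    | false =>
      have hw : w ++ false :: v = (w ++ [false]) ++ v := by simp
      obtain ⟨-, -, hd⟩ := mutation_facts (neg_sgn g.sgn) g.pb g.pa g.pc (by omega) (h.right_c w)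
      rw [if_neg (by omega)] at hd
      have hd' : m (τ (.node (w ++ [false]))).c
          = 3 * m (τ (.node w)).b * m (τ (.node w)).c := by
        have hap := g.pa.m_pos
        apply mul_right_cancel₀ hap.ne'
        rw [hd]
        nth_rewrite 1 [sq, hm]
        ring
      rw [hw, ih (w ++ [false]) (by rw [h.right_a]; exact hb)
        (by rw [h.right_a, h.right_b]; exact hd'), h.right_a, h.right_b, hm]
      simp only [pos]
      rw [show 3 * (3 * m (τ (.node w)).a * m (τ (.node w)).b)
        = (3 * m (τ (.node w)).a) * (3 * m (τ (.node w)).b) by ring]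
      generalize 3 * m (τ (.node w)).a = α
      generalize 3 * m (τ (.node w)).b = β
      ring

/-- The leftmost branch. -/
lemma value_left {τ : Vertex → Triple} (h : IsMirrorMarkovTree τ) (n : ℕ) :
    (τ (.node (List.replicate n true))).a = 1 ∧
      m (τ (.node (List.replicate n true))).b = 2 ^ n ∧
      m (τ (.node (List.replicate n true))).c = 2 ^ (n + 1) := by
  induction n with
  | zero =>
    simp only [List.replicate_zero, h.root]
    refine ⟨trivial, ?_, ?_⟩
    · rw [m, coeff_b0, lead_b0]; norm_num
    · rw [m, coeff_c0, lead_c0]; norm_num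
  | succ n ih =>
    obtain ⟨ha, hb, hc⟩ := ih
    have g := good_node h (List.replicate n true)
    have hdeg := g.deg
    have hdb := g.degb
    rw [List.replicate_succ']
    obtain ⟨-, -, hd⟩ := mutation_facts g.sgn g.pa g.pb g.pc (by omega)
      (h.left_c (List.replicate n true))
    rw [if_neg (by omega)] at hd
    refine ⟨by rw [h.left_a, ha], by rw [h.left_b, hc], ?_⟩
    have hbp := g.pb.m_pos
    apply mul_right_cancel₀ hbp.ne'
    rw [hd, hb, hc]
    ring

lemma value_left_right {τ : Vertex → Triple} (h : IsMirrorMarkovTree τ) (n : ℕ)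
    (v : List Bool) :
    3 * m (τ (.node (List.replicate n true ++ false :: v))).c
      = 3 ^ ((pos v).1 + (pos v).2) * 2 ^ (n * ((pos v).1 + (pos v).2) + (pos v).2) := by
  obtain ⟨ha, hb, hc⟩ := value_left h n
  set w := List.replicate n true with hw
  have g := good_node h w
  have hdeg := g.deg
  have hdb := g.degb
  have ha0 : (τ (.node w)).a.natDegree = 0 := by rw [ha]; simp
  obtain ⟨-, -, hd⟩ := mutation_facts (neg_sgn g.sgn) g.pb g.pa g.pc (by omega) (h.right_c w)
  rw [if_pos (by omega), ha, hb, hc] at hd
  have hm1 : m (1 : ℤ[X]) = 1 := by simp [m]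
  rw [hm1, mul_one] at hd
  have hww : w ++ false :: v = (w ++ [false]) ++ v := by simp
  rw [hww, value_generic h v (w ++ [false]) (by rw [h.right_a]; exact hdb)
    (by rw [h.right_a, h.right_b, hd, hb, hc]; ring), h.right_a, h.right_b, hb, hc]
  generalize (pos v).1 = x
  generalize (pos v).2 = y
  have h2 : (2 : ℤ) ^ (n * (x + y) + y) = (2 ^ n) ^ x * (2 ^ (n + 1)) ^ y := by
    rw [← pow_mul, ← pow_mul, ← pow_add]; congr 1; ring
  rw [h2, mul_pow, mul_pow, pow_add]
  ring

lemma word_cases (w : List Bool) : (∃ n, w = List.replicate n true) ∨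
    ∃ n v, w = List.replicate n true ++ false :: v := by
  induction w with
  | nil => exact Or.inl ⟨0, rfl⟩
  | cons l w ih =>
    cases l with
    | false => exact Or.inr ⟨0, w, rfl⟩
    | true =>
      rcases ih with ⟨n, rfl⟩ | ⟨n, v, rfl⟩
      · exact Or.inl ⟨n + 1, by rw [List.replicate_succ]⟩
      · exact Or.inr ⟨n + 1, v, by rw [List.replicate_succ]; rfl⟩

lemma pow_unique {S K S' K' : ℕ} (h : (3 : ℤ) ^ S * 2 ^ K = 3 ^ S' * 2 ^ K') :
    S = S' ∧ K = K' := by
  have h' : 3 ^ S * 2 ^ K = 3 ^ S' * 2 ^ K' := by exact_mod_cast h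
  have : Fact (Nat.Prime 3) := ⟨Nat.prime_three⟩
  have : Fact (Nat.Prime 2) := ⟨Nat.prime_two⟩
  constructor
  · have h3 := congrArg (padicValNat 3) h'
    rw [padicValNat.mul (by positivity) (by positivity),
      padicValNat.mul (by positivity) (by positivity), padicValNat.prime_pow,
      padicValNat.prime_pow, padicValNat_prime_prime_pow _ (by norm_num),
      padicValNat_prime_prime_pow _ (by norm_num)] at h3
    simpa using h3
  · have h2 := congrArg (padicValNat 2) h'
    rw [padicValNat.mul (by positivity) (by positivity),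
      padicValNat.mul (by positivity) (by positivity), padicValNat.prime_pow,
      padicValNat.prime_pow, padicValNat_prime_prime_pow _ (by norm_num),
      padicValNat_prime_prime_pow _ (by norm_num)] at h2
    simpa using h2

lemma node_injective {τ : Vertex → Triple} (h : IsMirrorMarkovTree τ) (w w' : List Bool)
    (hc : (τ (.node w)).c = (τ (.node w')).c) : w = w' := by
  have hm : 3 * m (τ (.node w)).c = 3 * m (τ (.node w')).c := by rw [hc]
  have pure : ∀ n, 3 * m (τ (.node (List.replicate n true))).c = 3 ^ 1 * 2 ^ (n + 1) := by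
    intro n; rw [(value_left h n).2.2]; ring
  rcases word_cases w with ⟨n, rfl⟩ | ⟨n, v, rfl⟩ <;>
    rcases word_cases w' with ⟨n', rfl⟩ | ⟨n', v', rfl⟩
  · rw [pure, pure] at hm
    obtain ⟨-, h2⟩ := pow_unique hm
    have : n = n' := by omega
    rw [this]
  · rw [pure, value_left_right h] at hm
    obtain ⟨h1, -⟩ := pow_unique hm
    have := pos_pos v'
    omega
  · rw [pure, value_left_right h] at hm
    obtain ⟨h1, -⟩ := pow_unique hm
    have := pos_pos v
    omega
  · rw [value_left_right h, value_left_right h] at hm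
    obtain ⟨h1, h2⟩ := pow_unique hm
    have p1 := pos_pos v
    have p2 := pos_pos v'
    rw [← h1] at h2
    set S := (pos v).1 + (pos v).2 with hS
    have hn : n = n' := by
      have e1 : (n * S + (pos v).2) / S = n := by
        rw [mul_comm, Nat.mul_add_div (by omega), Nat.div_eq_of_lt (by omega), add_zero]
      have e2 : (n' * S + (pos v').2) / S = n' := by
        rw [mul_comm, Nat.mul_add_div (by omega), Nat.div_eq_of_lt (by omega), add_zero]
      rw [← e1, ← e2, h2]
    subst hn
    have hv : v = v' := pos_injective v v' (Prod.ext (by omega) (by omega))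
    rw [hv]

lemma node_ne {τ : Vertex → Triple} (h : IsMirrorMarkovTree τ) (w : List Bool) :
    m (τ (.node w)).c ≠ 1 := by
  intro h1
  have hm : 3 * m (τ (.node w)).c = 3 ^ 1 * 2 ^ 0 := by rw [h1]; norm_num
  rcases word_cases w with ⟨n, rfl⟩ | ⟨n, v, rfl⟩
  · rw [(value_left h n).2.2, ← pow_one (3 : ℤ)] at hm
    rw [pow_one] at hm
    have := pow_unique (S := 1) (K := n + 1) (S' := 1) (K' := 0) (by rw [← hm, pow_one])
    omega
  · rw [value_left_right h] at hm
    obtain ⟨h1, h2⟩ := pow_unique hm
    have := pos_pos v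
    omega

/-- **Distinct maxima in the mirror Markov tree (MP_6870a6_co, Q1).**  The mirror Markov tree is
well defined (there is exactly one labelling of the vertices by triples obeying its rules), and no
two distinct vertices of it have the same maximum. -/
theorem result : (∃! τ : Vertex → Triple, IsMirrorMarkovTree τ) ∧
    ∀ τ : Vertex → Triple, IsMirrorMarkovTree τ → Function.Injective (fun v => (τ v).c) := by
  refine ⟨⟨tree, isMirrorMarkovTree_tree, fun τ h => tree_unique h isMirrorMarkovTree_tree⟩, ?_⟩
  intro τ h v v' hv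
  have m1 : m (1 : ℤ[X]) = 1 := by simp [m]
  have m2 : m (1 + X : ℤ[X]) = 1 := by rw [m, coeff_b0, lead_b0]; norm_num
  have hne : (1 : ℤ[X]) ≠ 1 + X := by
    intro h1
    have := congrArg natDegree h1
    rw [natDegree_b0, natDegree_one] at this
    exact zero_ne_one this
  simp only at hv
  cases v with
  | top =>
    cases v' with
    | top => rfl
    | second => rw [h.top, h.second] at hv; exact absurd hv hne
    | node w =>
      rw [h.top] at hv
      exact absurd (by rw [← hv, m1]) (node_ne h w)
  | second =>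
    cases v' with
    | top => rw [h.top, h.second] at hv; exact absurd hv.symm hne
    | second => rfl
    | node w =>
      rw [h.second] at hv
      exact absurd (by rw [← hv, m2]) (node_ne h w)
  | node w =>
    cases v' with
    | top =>
      rw [h.top] at hv
      exact absurd (by rw [hv, m1]) (node_ne h w)
    | second =>
      rw [h.second] at hv
      exact absurd (by rw [hv, m2]) (node_ne h w)
    | node w' => rw [node_injective h w w' hv]

end Pool.Agent.Results.MP_6870a6_co.DistinctMaxima
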